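import Pool.Agent.helper6.LA.Main

/-!
# Non-complete regular graphs have local antimagic chromatic number below the order

For every finite connected regular graph `G` that is not complete, the local antimagic chromatic
number of `G` is strictly smaller than the number of vertices. This answers Q1 of MP_97eede_co
(there is no non-complete connected regular graph with local antimagic chromatic number equal
to its order).
-/

namespace Pool.Agent.Results.MP_97eede_co.NoncompleteRegular

/-- The weight of the vertex `v` under the edge labels `f`: the sum of the labels of the edges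
of `G` that contain `v`. -/
noncomputable def weight {V : Type*} (G : SimpleGraph V) (f : Sym2 V → ℕ) (v : V) : ℕ :=
  ∑ᶠ e ∈ G.incidenceSet v, f e

/-- `f` is a local antimagic labelling of `G`: it restricts to a bijection from the edge set onto
`{1, ..., m}`, where `m` is the number of edges, and adjacent vertices have different weights. -/
def IsLocalAntimagic {V : Type*} (G : SimpleGraph V) (f : Sym2 V → ℕ) : Prop :=
  Set.BijOn f G.edgeSet (Set.Icc 1 G.edgeSet.ncard) ∧
    ∀ u v, G.Adj u v → weight G f u ≠ weight G f v

/-- The local antimagic chromatic number: the least number of distinct vertex weights among all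
local antimagic labellings. -/
noncomputable def chiLa {V : Type*} (G : SimpleGraph V) : ℕ :=
  sInf {k | ∃ f : Sym2 V → ℕ, IsLocalAntimagic G f ∧ (Set.range (weight G f)).ncard = k}

open Pool.Agent.helper6.LA in
lemma weight_eq {V : Type*} [Fintype V] [DecidableEq V] (G : SimpleGraph V) [DecidableRel G.Adj]
    (f : Sym2 V → ℕ) (v : V) : weight G f v = wt G f v := by
  have h1 : G.incidenceSet v = (((G.neighborFinset v).image (fun u => s(v, u)) : Finset (Sym2 V)) :
      Set (Sym2 V)) := by
    ext e
    rw [Finset.mem_coe, Finset.mem_image]
    constructor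
    · rintro ⟨he, hv⟩
      obtain ⟨u, rfl⟩ := Sym2.mem_iff_exists.mp hv
      exact ⟨u, (SimpleGraph.mem_neighborFinset _ _ _).mpr he, rfl⟩
    · rintro ⟨u, hu, rfl⟩
      rw [SimpleGraph.mem_neighborFinset] at hu
      exact ⟨hu, Sym2.mem_mk_left v u⟩
  unfold weight wt
  rw [h1, finsum_mem_coe_finset, Finset.sum_image]
  intro a _ a' _ h
  exact Sym2.congr_right.mp h

/-- For every finite connected regular graph `G` that is not complete, the minimum defining the
local antimagic chromatic number is attained by a local antimagic labelling and is strictly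
smaller than the number of vertices. -/
theorem result {V : Type*} [Finite V] (G : SimpleGraph V) (hconn : G.Connected)
    (hreg : ∃ r, ∀ v, (G.neighborSet v).ncard = r) (hne : G ≠ ⊤) :
    (∃ f : Sym2 V → ℕ, IsLocalAntimagic G f ∧ (Set.range (weight G f)).ncard = chiLa G) ∧
      chiLa G < Nat.card V := by
  classical
  have : Fintype V := Fintype.ofFinite V
  obtain ⟨r, hr⟩ := hreg
  have hdeg : ∀ v, G.degree v = r := by
    intro v
    have h1 : (G.neighborSet v).ncard = (G.neighborFinset v).card := by
      rw [← Set.ncard_coe_finset, SimpleGraph.coe_neighborFinset]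
    rw [← hr v, h1, SimpleGraph.card_neighborFinset_eq_degree]
  obtain ⟨x, y, z, hxy, hnxy, hxz, hyz⟩ := Pool.Agent.helper6.LA.exists_cherry hconn hne
  obtain ⟨x, y, hxy, f, hf, hprop, hw⟩ := Pool.Agent.helper6.LA.main_fin hdeg hxy hnxy hxz hyz
  have hla : IsLocalAntimagic G f := by
    refine ⟨?_, ?_⟩
    · rw [← SimpleGraph.coe_edgeFinset, Set.ncard_coe_finset, SimpleGraph.coe_edgeFinset]
      exact hf
    · intro u v huv
      rw [weight_eq, weight_eq]
      exact hprop u v huv
  have hmem : (Set.range (weight G f)).ncard ∈
      {k | ∃ f : Sym2 V → ℕ, IsLocalAntimagic G f ∧ (Set.range (weight G f)).ncard = k} :=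
    ⟨f, hla, rfl⟩
  have hlt : (Set.range (weight G f)).ncard < Nat.card V := by
    have hsub : Set.range (weight G f) ⊆ ((Finset.univ.erase x).image (weight G f) : Finset ℕ) := by
      rintro k ⟨v, rfl⟩
      rw [Finset.mem_coe, Finset.mem_image]
      by_cases hv : v = x
      · refine ⟨y, Finset.mem_erase.mpr ⟨hxy.symm, Finset.mem_univ _⟩, ?_⟩
        rw [hv, weight_eq, weight_eq, hw]
      · exact ⟨v, Finset.mem_erase.mpr ⟨hv, Finset.mem_univ _⟩, rfl⟩
    calc (Set.range (weight G f)).ncard
        ≤ (((Finset.univ.erase x).image (weight G f) : Finset ℕ) : Set ℕ).ncard :=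
          Set.ncard_le_ncard hsub (Finset.finite_toSet _)
      _ = ((Finset.univ.erase x).image (weight G f)).card := Set.ncard_coe_finset _
      _ ≤ (Finset.univ.erase x).card := Finset.card_image_le
      _ < Finset.univ.card := Finset.card_erase_lt_of_mem (Finset.mem_univ x)
      _ = Nat.card V := by rw [Nat.card_eq_fintype_card, Finset.card_univ]
  refine ⟨?_, ?_⟩
  · exact Nat.sInf_mem ⟨_, hmem⟩
  · exact lt_of_le_of_lt (Nat.sInf_le hmem) hlt

end Pool.Agent.Results.MP_97eede_co.NoncompleteRegular
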